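import Mathlib
import Pool.Agent.N903.BenfordG2

set_option autoImplicit false

/-!
# Benford's law for the cycles of the maps `T_{a,b}` (`3x+1` and `5x+1` among them)

For every odd prime `a` and every odd `b`, the significands in base `a` of the elements of a cycle of
`T_{a,b}`, and the significands in base two of its odd elements, are logarithmically distributed, with an
error `o(p)` which is uniform in the cycle (`p` is the number of its elements). The same holds for the
pieces of all trajectories, bounded or not, whose terms are different from each other.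

Method. One step changes `log_a |x|` by `- log_a 2` up to an integer and an error `O(|b| / |x|)`, and from
one odd term to the next one `log_2 |x|` changes by `log_2 a` up to an integer and an error
`O(|b| / |x|)`. The piece is cut into blocks of length `q`, where `q` is the denominator of a good
rational approximation; by a lower bound for linear forms in two logarithms (starting file
`H440R2.LFL2`) such denominators exist at all scales. In the blocks without terms below `2 |b| q ^ 2` the
phases are within `2 / q` of a set of `q` equally spaced points, and the number of the other blocks is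
at most the number of the integers below `2 |b| q ^ 2`.
-/

namespace Pool.Agent.Results.MP_dee342_nt.BenfordCycles

/-- The map `T_{a,b}` on the integers. -/
def T (a b x : ℤ) : ℤ := if x % 2 = 0 then x / 2 else (a * x + b) / 2

/-- `Z` is a cycle (periodic orbit) of `T_{a,b}`. -/
def IsCycle (a b : ℤ) (Z : Finset ℤ) : Prop :=
  ∃ (x : ℤ) (p : ℕ), 1 ≤ p ∧ (T a b)^[p] x = x ∧ Z = (Finset.range p).image fun i => (T a b)^[i] x

/-- The set of the first `n` terms of the trajectory of `x`. -/
def terms (a b x : ℤ) (n : ℕ) : Finset ℤ := (Finset.range n).image fun i => (T a b)^[i] x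

/-- The odd elements of `S`. -/
def odd (S : Finset ℤ) : Finset ℤ := S.filter fun x => x % 2 = 1

/-- The number of the `x` in `S` whose significand in base `g` lies in `[g ^ s, g ^ t)`: the fractional
part of the logarithm of `|x|` to the base `g` is in `[s, t)`. -/
noncomputable def count (g : ℕ) (S : Finset ℤ) (s t : ℝ) : ℕ :=
  {x : ℤ | x ∈ S ∧ s ≤ Int.fract (Real.logb g |(x : ℝ)|) ∧ Int.fract (Real.logb g |(x : ℝ)|) < t}.ncard

/-- Benford's law in base `g` for the elements of `S` with error `E`: for all `0 ≤ s ≤ t ≤ 1` the number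
of the elements of `S` whose significand lies in `[g ^ s, g ^ t)` differs from `t - s` times the number of
all elements by at most `E`. -/
def Benford (g : ℕ) (S : Finset ℤ) (E : ℝ) : Prop :=
  ∀ s t : ℝ, 0 ≤ s → s ≤ t → t ≤ 1 → |(count g S s t : ℝ) - (t - s) * S.card| ≤ E

open Pool.Agent.N903.BG in
theorem piece {a : ℕ} {b x : ℤ} {n : ℕ} (hinj : Set.InjOn (fun i => (T a b)^[i] x) (Set.Iio n)) {C : ℝ}
    (h3 : ∀ s t : ℝ, 0 ≤ s → s ≤ t → t ≤ 1 →
      |(((Finset.range n).filter fun i => s ≤ Int.fract (Real.logb a |(((T a b)^[i] x : ℤ) : ℝ)|) ∧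
        Int.fract (Real.logb a |(((T a b)^[i] x : ℤ) : ℝ)|) < t).card : ℝ) - (t - s) * n| ≤ C)
    (h2 : ∀ s t : ℝ, 0 ≤ s → s ≤ t → t ≤ 1 →
      |(((odds a b n x).filter fun i => s ≤ Int.fract (Real.logb 2 |(((T a b)^[i] x : ℤ) : ℝ)|) ∧
        Int.fract (Real.logb 2 |(((T a b)^[i] x : ℤ) : ℝ)|) < t).card : ℝ) -
        (t - s) * (odds a b n x).card| ≤ C) :
    Benford a (terms a b x n) C ∧ Benford 2 (odd (terms a b x n)) C := by
  classical
  have hinj' : Set.InjOn (fun i => (T a b)^[i] x) (Finset.range n : Set ℕ) := by
    rw [Finset.coe_range]; exact hinj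
  have hcard : (terms a b x n).card = n := by
    unfold terms
    rw [Finset.card_image_of_injOn hinj', Finset.card_range]
  have himg : odd (terms a b x n) = (odds a b n x).image fun i => (T a b)^[i] x := by
    unfold odd terms odds
    rw [Finset.filter_image]
    rfl
  have hcardo : (odd (terms a b x n)).card = (odds a b n x).card := by
    rw [himg]
    apply Finset.card_image_of_injOn
    apply hinj'.mono
    exact Finset.coe_subset.2 (Finset.filter_subset _ _)
  constructor
  · intro s t hs hst ht
    have e : count a (terms a b x n) s t =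
        ((Finset.range n).filter fun i => s ≤ Int.fract (Real.logb a |(((T a b)^[i] x : ℤ) : ℝ)|) ∧
        Int.fract (Real.logb a |(((T a b)^[i] x : ℤ) : ℝ)|) < t).card := by
      unfold count
      rw [show {y : ℤ | y ∈ terms a b x n ∧ s ≤ Int.fract (Real.logb a |(y : ℝ)|) ∧
          Int.fract (Real.logb a |(y : ℝ)|) < t} =
          (((Finset.range n).filter fun i => s ≤ Int.fract (Real.logb a |(((T a b)^[i] x : ℤ) : ℝ)|) ∧
        Int.fract (Real.logb a |(((T a b)^[i] x : ℤ) : ℝ)|) < t).image
          fun i => (T a b)^[i] x : Finset ℤ) by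
          ext y
          simp only [terms, Finset.mem_image, Finset.mem_range, Set.mem_ofPred_eq, Finset.coe_image,
            Finset.coe_filter, Set.mem_image]
          constructor
          · rintro ⟨⟨i, hi, rfl⟩, h⟩
            exact ⟨i, ⟨hi, h⟩, rfl⟩
          · rintro ⟨i, ⟨hi, h⟩, rfl⟩
            exact ⟨⟨i, hi, rfl⟩, h⟩, Set.ncard_coe_finset]
      apply Finset.card_image_of_injOn
      apply hinj'.mono
      exact Finset.coe_subset.2 (Finset.filter_subset _ _)
    rw [e, hcard]
    exact h3 s t hs hst ht
  · intro s t hs hst ht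
    have e : count 2 (odd (terms a b x n)) s t =
        ((odds a b n x).filter fun i => s ≤ Int.fract (Real.logb 2 |(((T a b)^[i] x : ℤ) : ℝ)|) ∧
        Int.fract (Real.logb 2 |(((T a b)^[i] x : ℤ) : ℝ)|) < t).card := by
      unfold count
      rw [show {y : ℤ | y ∈ odd (terms a b x n) ∧ s ≤ Int.fract (Real.logb (2 : ℕ) |(y : ℝ)|) ∧
          Int.fract (Real.logb (2 : ℕ) |(y : ℝ)|) < t} =
          (((odds a b n x).filter fun i => s ≤ Int.fract (Real.logb 2 |(((T a b)^[i] x : ℤ) : ℝ)|) ∧
        Int.fract (Real.logb 2 |(((T a b)^[i] x : ℤ) : ℝ)|) < t).image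
          fun i => (T a b)^[i] x : Finset ℤ) by
          ext y
          rw [himg]
          simp only [Finset.mem_image, Set.mem_ofPred_eq, Finset.coe_image,
            Finset.coe_filter, Set.mem_image]
          push_cast
          constructor
          · rintro ⟨⟨i, hi, rfl⟩, h⟩
            exact ⟨i, ⟨hi, h⟩, rfl⟩
          · rintro ⟨i, ⟨hi, h⟩, rfl⟩
            exact ⟨⟨i, hi, rfl⟩, h⟩, Set.ncard_coe_finset]
      apply Finset.card_image_of_injOn
      apply hinj'.mono
      refine (Finset.coe_subset.2 (Finset.filter_subset _ _)).trans ?_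
      exact Finset.coe_subset.2 (Finset.filter_subset _ _)
    rw [e, hcardo]
    exact h2 s t hs hst ht

/-- **Benford's law.** Let `a` be an odd prime. There are `C` and `κ > 0` such that for every odd `b`
(for instance for `T_3 = T_{3,1}` and `T_5 = T_{5,1}`):
(1) for every cycle `Z` of `T_{a,b}` on the integers, with `p` elements, the elements of `Z` obey Benford's
law in base `a`, and the odd elements of `Z` obey Benford's law in base two, with error
`C |b| p exp (- κ (log p) ^ (1 / 2))`;
(2) for all integers `x` and all `n` such that the first `n` terms of the trajectory of `x` under `T_{a,b}`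
are different from each other, these terms obey Benford's law in base `a`, and the odd ones among them
obey Benford's law in base two, with error `C |b| n exp (- κ (log n) ^ (1 / 2))`. -/
theorem result (a : ℕ) (ha : a.Prime) (ha2 : a ≠ 2) : ∃ C κ : ℝ, 0 < κ ∧ ∀ b : ℤ, b % 2 = 1 →
    (∀ Z : Finset ℤ, IsCycle a b Z →
      Benford a Z (C * |(b : ℝ)| * (Z.card * Real.exp (-(κ * Real.sqrt (Real.log Z.card))))) ∧
      Benford 2 (odd Z) (C * |(b : ℝ)| * (Z.card * Real.exp (-(κ * Real.sqrt (Real.log Z.card)))))) ∧
    (∀ (x : ℤ) (n : ℕ), (∀ i j : ℕ, i < n → j < n → (T a b)^[i] x = (T a b)^[j] x → i = j) →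
      Benford a (terms a b x n) (C * |(b : ℝ)| * (n * Real.exp (-(κ * Real.sqrt (Real.log n))))) ∧
      Benford 2 (odd (terms a b x n))
        (C * |(b : ℝ)| * (n * Real.exp (-(κ * Real.sqrt (Real.log n)))))) := by
  classical
  obtain ⟨C3, κ3, hC3, hκ3, h3⟩ := Pool.Agent.N903.BG.base_a ha ha2
  obtain ⟨C2, κ2, hC2, hκ2, h2⟩ := Pool.Agent.N903.BG.base_two ha ha2
  have hmono : ∀ (κ' : ℝ) (n : ℕ), min κ3 κ2 ≤ κ' → Pool.Agent.N903.BG.err κ' n ≤
      n * Real.exp (-(min κ3 κ2 * Real.sqrt (Real.log n))) := by
    intro κ' n h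
    unfold Pool.Agent.N903.BG.err
    apply mul_le_mul_of_nonneg_left _ (Nat.cast_nonneg _)
    apply Real.exp_le_exp.2
    have := mul_le_mul_of_nonneg_right h (Real.sqrt_nonneg (Real.log n))
    linarith
  refine ⟨max C3 C2, min κ3 κ2, lt_min hκ3 hκ2, fun b hb => ?_⟩
  have main : ∀ (x : ℤ) (n : ℕ), (∀ i j : ℕ, i < n → j < n → (T a b)^[i] x = (T a b)^[j] x → i = j) →
      Benford a (terms a b x n)
        (max C3 C2 * |(b : ℝ)| * (n * Real.exp (-(min κ3 κ2 * Real.sqrt (Real.log n))))) ∧
      Benford 2 (odd (terms a b x n))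
        (max C3 C2 * |(b : ℝ)| * (n * Real.exp (-(min κ3 κ2 * Real.sqrt (Real.log n))))) := by
    intro x n hinj
    have hinj' : Set.InjOn (fun i => (T a b)^[i] x) (Set.Iio n) := fun i hi j hj h => hinj i j hi hj h
    apply piece hinj'
    · intro s t hs hst ht
      refine (h3 b hb x n hinj' s t hs hst ht).trans ?_
      have e1 := hmono κ3 n (min_le_left _ _)
      have e2 := Pool.Agent.N903.BG.err_nonneg κ3 n
      have e3 : |(b : ℝ)| * C3 ≤ max C3 C2 * |(b : ℝ)| := by
        rw [mul_comm]
        exact mul_le_mul_of_nonneg_right (le_max_left _ _) (abs_nonneg _)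
      exact mul_le_mul e3 e1 e2 (by positivity)
    · intro s t hs hst ht
      refine (h2 b hb x n hinj' s t hs hst ht).trans ?_
      have e1 := hmono κ2 n (min_le_right _ _)
      have e2 := Pool.Agent.N903.BG.err_nonneg κ2 n
      have e3 : |(b : ℝ)| * C2 ≤ max C3 C2 * |(b : ℝ)| := by
        rw [mul_comm]
        exact mul_le_mul_of_nonneg_right (le_max_right _ _) (abs_nonneg _)
      exact mul_le_mul e3 e1 e2 (by positivity)
  refine ⟨?_, main⟩
  rintro Z ⟨x, p, hp, hper, rfl⟩
  set r := Function.minimalPeriod (T a b) x with hr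
  have hxp : Function.IsPeriodicPt (T a b) p x := hper
  have hr0 : 0 < r := hxp.minimalPeriod_pos hp
  have hinj : Set.InjOn (fun i => (T a b)^[i] x) (Set.Iio r) :=
    Function.iterate_injOn_Iio_minimalPeriod
  have hrp : r ≤ p := hxp.minimalPeriod_le hp
  have hZ : ((Finset.range p).image fun i => (T a b)^[i] x) = terms a b x r := by
    unfold terms
    ext y
    simp only [Finset.mem_image, Finset.mem_range]
    constructor
    · rintro ⟨i, _, rfl⟩
      exact ⟨i % r, Nat.mod_lt _ hr0, Function.iterate_mod_minimalPeriod_eq⟩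
    · rintro ⟨i, hi, rfl⟩
      exact ⟨i, by omega, rfl⟩
  have hcard : (terms a b x r).card = r := by
    unfold terms
    rw [Finset.card_image_of_injOn (by rw [Finset.coe_range]; exact hinj), Finset.card_range]
  rw [hZ, hcard]
  exact main x r (fun i j hi hj h => hinj hi hj h)

end Pool.Agent.Results.MP_dee342_nt.BenfordCycles
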