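import Mathlib
import Pool.Agent.N903.Tree3

set_option autoImplicit false

/-!
# Sums of dilates of the cycles of the maps `T_{a,b}`

Let `Z` be a finite union of cycles of a map `T_{a,b}` on the integers, `a` and `b` odd, and let `r` be the
proportion of odd elements of `Z`. For all non-zero integers `u`, `v` the set `u Z + v Z` has at least
`|Z| ^ E(r)` elements, with `E(r) = 2 - h(r) / h(2 r (1 - r))`, where `h` is the entropy function; `E(r) > 1` if
`r ≠ 1 / 2`. For the cycles of the `5x+1` map other than `(0)` and `(-1, -2)` the exponent is at least `1.006`.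

Method: see `Pool/Agent/N903/Tree3.lean`; the residue classes modulo `2 ^ k`, invariance under the map, and the
inequality of Wyner and Ziv (Mrs. Gerber's lemma).
-/

namespace Pool.Agent.Results.MP_dee342_nt.SumsOfDilatesCycles

open Real

/-- The map `T_{a,b}` on the integers. -/
def T (a b x : ℤ) : ℤ := if x % 2 = 0 then x / 2 else (a * x + b) / 2

/-- The finite set `Z` is permuted by `T_{a,b}`: it is a union of cycles. -/
def IsUnionOfCycles (a b : ℤ) (Z : Finset ℤ) : Prop := (∀ x ∈ Z, T a b x ∈ Z) ∧ Set.InjOn (T a b) Z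

/-- The proportion of odd elements. -/
noncomputable def oddProportion (Z : Finset ℤ) : ℝ :=
  ((Z.filter fun x => x % 2 = 1).card : ℝ) / Z.card

theorem T_eq (a b : ℤ) : T a b = Pool.Agent.N903.SS.T a b := by
  funext x
  rfl

theorem inv_of {a b : ℤ} {Z : Finset ℤ} (hZ : IsUnionOfCycles a b Z) : Pool.Agent.N903.SS.Inv a b Z := by
  unfold Pool.Agent.N903.SS.Inv
  rw [← T_eq]
  exact hZ

theorem to_rpow {Z W : Finset ℤ} (hN : Z.Nonempty) (hW : W.Nonempty) {E : ℝ}
    (h : E * Real.log Z.card ≤ Real.log W.card) : (Z.card : ℝ) ^ E ≤ W.card := by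
  have hc : (0 : ℝ) < Z.card := by exact_mod_cast Finset.card_pos.2 hN
  have hw : (0 : ℝ) < W.card := by exact_mod_cast Finset.card_pos.2 hW
  rw [← Real.log_rpow hc] at h
  exact (Real.log_le_log_iff (Real.rpow_pos_of_pos hc _) hw).1 h

theorem dil_nonempty {Z : Finset ℤ} (hN : Z.Nonempty) (u v : ℤ) :
    (Pool.Agent.N903.SS.dil u v Z).Nonempty := by
  obtain ⟨x, hx⟩ := hN
  exact ⟨_, Finset.mem_image₂_of_mem hx hx⟩

theorem general {a b : ℤ} (ha : a % 2 = 1) (hb : b % 2 = 1) {Z : Finset ℤ}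
    (hZ : IsUnionOfCycles a b Z) {u v : ℤ} (hu : u ≠ 0) (hv : v ≠ 0) :
    (Z.card : ℝ) ^ (2 - binEntropy (oddProportion Z) /
      binEntropy (2 * oddProportion Z * (1 - oddProportion Z))) ≤
      ((Finset.image₂ (fun x y => u * x + v * y) Z Z).card : ℝ) := by
  rcases Finset.eq_empty_or_nonempty Z with hE | hN
  · subst hE
    have : oddProportion ∅ = 0 := by unfold oddProportion; simp
    simp only [Finset.card_empty, Nat.cast_zero, Finset.image₂_empty_left, this]
    rw [Real.zero_rpow (by simp)]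
  have hc : (0 : ℝ) < Z.card := by exact_mod_cast Finset.card_pos.2 hN
  have hinv := inv_of hZ
  set ρ := oddProportion Z with hρ
  have hρ' : Pool.Agent.N903.SS.rho Z = ρ := rfl
  have hρ0 : 0 ≤ ρ := by rw [hρ]; unfold oddProportion; positivity
  have hρ1 : ρ ≤ 1 := by
    rw [hρ]; unfold oddProportion
    rw [div_le_one hc]
    exact_mod_cast Finset.card_le_card (Finset.filter_subset _ _)
  change (Z.card : ℝ) ^ _ ≤ ((Pool.Agent.N903.SS.dil u v Z).card : ℝ)
  by_cases hdeg : ρ = 0 ∨ ρ = 1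
  · -- one element
    have hh : binEntropy ρ = 0 := binEntropy_eq_zero.2 hdeg
    obtain ⟨K, hK⟩ := Pool.Agent.N903.SS.exists_level Z
    have h1 := Pool.Agent.N903.SS.sum_HH (Z := Z) ha hb K (hK K le_rfl)
    have h2 : ∑ k ∈ Finset.range K, Pool.Agent.N903.SS.HH a b Z k ≤ 0 := by
      apply Finset.sum_nonpos
      intro k _
      have := Pool.Agent.N903.SS.HH_le hinv hN k
      rwa [hρ', hh, mul_zero] at this
    rw [h1] at h2
    have h3 : Real.log Z.card ≤ 0 := by
      by_contra hcon
      push Not at hcon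
      have := mul_pos hc hcon
      linarith
    have h4 : (1 : ℝ) ≤ Z.card := by exact_mod_cast Finset.card_pos.2 hN
    have h5 : Z.card = 1 := by
      have : (Z.card : ℝ) ≤ 1 := by
        by_contra hcon
        push Not at hcon
        have := Real.log_pos hcon
        linarith
      have : Z.card ≤ 1 := by exact_mod_cast this
      have := Finset.card_pos.2 hN
      omega
    rw [h5, Nat.cast_one, Real.one_rpow]
    exact_mod_cast Finset.card_pos.2 (dil_nonempty hN u v)
  push Not at hdeg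
  have hρ0' : 0 < ρ := lt_of_le_of_ne hρ0 (Ne.symm hdeg.1)
  have hρ1' : ρ < 1 := lt_of_le_of_ne hρ1 hdeg.2
  rcases lt_trichotomy ρ (1 / 2) with hlt | heq | hgt
  · have hmain := Pool.Agent.N903.SS.main ha hb hinv hN (β := ρ) hρ0' hlt le_rfl hu hv
    apply to_rpow hN (dil_nonempty hN u v)
    have : Pool.Agent.N903.SS.star ρ ρ = 2 * ρ * (1 - ρ) := by
      unfold Pool.Agent.N903.SS.star; ring
    rwa [this] at hmain
  · -- trivial bound
    have e : 2 * ρ * (1 - ρ) = 1 / 2 := by rw [heq]; norm_num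
    rw [e, heq]
    have e2 : binEntropy (1 / 2 : ℝ) ≠ 0 := (binEntropy_pos (by norm_num) (by norm_num)).ne'
    rw [div_self e2]
    have e3 : (2 : ℝ) - 1 = 1 := by norm_num
    rw [e3, Real.rpow_one]
    norm_cast
    obtain ⟨x0, hx0⟩ := hN
    apply Finset.card_le_card_of_injOn (fun x => u * x + v * x0)
    · intro x hx
      exact Finset.mem_image₂_of_mem hx hx0
    · intro x _ y _ hxy
      simp only [add_left_inj] at hxy
      exact mul_left_cancel₀ hu hxy
  · have hmain := Pool.Agent.N903.SS.main ha hb hinv hN (β := 1 - ρ) (by linarith) (by linarith)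
      (by rw [binEntropy_one_sub, hρ']) hu hv
    apply to_rpow hN (dil_nonempty hN u v)
    have : Pool.Agent.N903.SS.star (1 - ρ) (1 - ρ) = 2 * ρ * (1 - ρ) := by
      unfold Pool.Agent.N903.SS.star; ring
    rwa [this, binEntropy_one_sub] at hmain

/-- the proportion of odd elements for the 5x+1 map -/
theorem density {Z : Finset ℤ} (hZ : IsUnionOfCycles 5 1 Z) (h0 : (0 : ℤ) ∉ Z) (h1 : (-1 : ℤ) ∉ Z) :
    20 * (Z.filter fun x => x % 2 = 1).card ≤ 9 * Z.card := by
  set O := Z.filter fun x => x % 2 = 1 with hO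
  set E := Z.filter fun x => ¬ (x % 2 = 1) with hE
  have hne : ∀ x ∈ Z, (x : ℝ) ≠ 0 := by
    intro x hx h
    apply h0
    have : x = 0 := by exact_mod_cast h
    rwa [this] at hx
  have himg : Z.image (T 5 1) = Z := by
    apply Finset.eq_of_subset_of_card_le
    · intro y hy
      rw [Finset.mem_image] at hy
      obtain ⟨x, hx, rfl⟩ := hy
      exact hZ.1 x hx
    · rw [Finset.card_image_of_injOn hZ.2]
  have hprod : ∏ x ∈ Z, ((T 5 1 x : ℤ) : ℝ) = ∏ x ∈ Z, (x : ℝ) := by
    conv_rhs => rw [← himg]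
    rw [Finset.prod_image fun x hx y hy => hZ.2 hx hy]
  have hprod2 : ∏ x ∈ Z, (2 * ((T 5 1 x : ℤ) : ℝ)) / x = 2 ^ Z.card := by
    rw [Finset.prod_div_distrib, Finset.prod_mul_distrib, hprod, Finset.prod_const]
    have : ∏ x ∈ Z, (x : ℝ) ≠ 0 := Finset.prod_ne_zero_iff.2 hne
    field_simp
  rw [← Finset.prod_filter_mul_prod_filter_not Z (fun x => x % 2 = 1)] at hprod2
  have hev : ∏ x ∈ E, (2 * ((T 5 1 x : ℤ) : ℝ)) / x = 1 := by
    apply Finset.prod_eq_one
    intro x hx
    rw [hE, Finset.mem_filter] at hx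
    have h2 : x % 2 = 0 := by omega
    have h3 : 2 * T 5 1 x = x := by
      unfold T; rw [if_pos h2]; omega
    have h4 : 2 * ((T 5 1 x : ℤ) : ℝ) = x := by exact_mod_cast h3
    rw [h4, div_self (hne x hx.1)]
  rw [hev, mul_one] at hprod2
  have hod : ∏ x ∈ O, (14 / 3 : ℝ) ≤ ∏ x ∈ O, (2 * ((T 5 1 x : ℤ) : ℝ)) / x := by
    apply Finset.prod_le_prod
    · intro x _; norm_num
    · intro x hx
      rw [hO, Finset.mem_filter] at hx
      have h3 : 2 * T 5 1 x = 5 * x + 1 := by
        unfold T; rw [if_neg (by omega)]; omega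
      have h4 : 2 * ((T 5 1 x : ℤ) : ℝ) = 5 * x + 1 := by exact_mod_cast h3
      rw [h4]
      rcases lt_or_ge 0 x with h | h
      · have h5 : (0 : ℝ) < x := by exact_mod_cast h
        rw [le_div_iff₀ h5]
        linarith
      · have hx1 : x ≤ -3 := by
          have : x ≠ 0 := fun h' => h0 (h' ▸ hx.1)
          have : x ≠ -1 := fun h' => h1 (h' ▸ hx.1)
          omega
        have : (x : ℝ) ≤ -3 := by exact_mod_cast hx1
        rw [le_div_iff_of_neg (by linarith)]
        linarith
  change ∏ x ∈ O, (2 * ((T 5 1 x : ℤ) : ℝ)) / x = 2 ^ Z.card at hprod2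
  rw [hprod2, Finset.prod_const] at hod
  have h5 : ((14 / 3 : ℝ) ^ O.card) ^ 9 ≤ ((2 : ℝ) ^ Z.card) ^ 9 :=
    pow_le_pow_left₀ (by positivity) hod 9
  rw [← pow_mul, ← pow_mul, mul_comm O.card, pow_mul (14 / 3 : ℝ)] at h5
  have h6 : ((2 : ℝ) ^ 20) ^ O.card ≤ ((14 / 3 : ℝ) ^ 9) ^ O.card :=
    pow_le_pow_left₀ (by positivity) (by norm_num) _
  rw [← pow_mul (2 : ℝ)] at h6
  have h7 := h6.trans h5
  have h8 := (pow_le_pow_iff_right₀ (by norm_num : (1 : ℝ) < 2)).1 h7
  omega

/-- numerical values -/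
theorem numerics : binEntropy (9 / 20) / binEntropy (Pool.Agent.N903.SS.star (9 / 20) (9 / 20)) ≤ 0.994 := by
  have hl2 : 0 < log 2 := Real.log_pos (by norm_num)
  have hs : Pool.Agent.N903.SS.star (9 / 20 : ℝ) (9 / 20) = 99 / 200 := by
    unfold Pool.Agent.N903.SS.star; norm_num
  have h9 : log 9 = 2 * log 3 := by
    rw [show (9 : ℝ) = 3 ^ 2 by norm_num, Real.log_pow]; norm_num
  have h20 : log 20 = 2 * log 2 + log 5 := by
    rw [show (20 : ℝ) = 2 ^ 2 * 5 by norm_num, Real.log_mul (by norm_num) (by norm_num), Real.log_pow]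
    norm_num
  have h200 : log 200 = 3 * log 2 + 2 * log 5 := by
    rw [show (200 : ℝ) = 2 ^ 3 * 5 ^ 2 by norm_num, Real.log_mul (by norm_num) (by norm_num),
      Real.log_pow, Real.log_pow]
    norm_num
  have h99 : log 99 = 2 * log 3 + log 11 := by
    rw [show (99 : ℝ) = 3 ^ 2 * 11 by norm_num, Real.log_mul (by norm_num) (by norm_num), Real.log_pow]
    norm_num
  have e1 : binEntropy (9 / 20) = 2 * log 2 + log 5 - 9 / 10 * log 3 - 11 / 20 * log 11 := by
    unfold binEntropy
    rw [show (1 - 9 / 20 : ℝ) = 11 / 20 by norm_num, Real.log_inv, Real.log_inv,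
      Real.log_div (by norm_num) (by norm_num), Real.log_div (by norm_num) (by norm_num), h9, h20]
    ring
  have e2 : binEntropy (99 / 200) = 3 * log 2 + 2 * log 5 - 99 / 200 * (2 * log 3 + log 11) -
      101 / 200 * log 101 := by
    unfold binEntropy
    rw [show (1 - 99 / 200 : ℝ) = 101 / 200 by norm_num, Real.log_inv, Real.log_inv,
      Real.log_div (by norm_num) (by norm_num), Real.log_div (by norm_num) (by norm_num), h99, h200]
    ring
  have a2 : 147 * log 3 ≤ 233 * log 2 := by
    have : Real.log ((3 : ℝ) ^ 147) ≤ Real.log ((2 : ℝ) ^ 233) := Real.log_le_log (by positivity) (by norm_num)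
    rw [Real.log_pow, Real.log_pow] at this
    exact_mod_cast this
  have a3 : 202 * log 2 ≤ 87 * log 5 := by
    have : Real.log ((2 : ℝ) ^ 202) ≤ Real.log ((5 : ℝ) ^ 87) := Real.log_le_log (by positivity) (by norm_num)
    rw [Real.log_pow, Real.log_pow] at this
    exact_mod_cast this
  have a4 : 83 * log 2 ≤ 24 * log 11 := by
    have : Real.log ((2 : ℝ) ^ 83) ≤ Real.log ((11 : ℝ) ^ 24) := Real.log_le_log (by positivity) (by norm_num)
    rw [Real.log_pow, Real.log_pow] at this
    exact_mod_cast this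
  have a5 : 41 * log 101 ≤ 273 * log 2 := by
    have : Real.log ((101 : ℝ) ^ 41) ≤ Real.log (((2 : ℝ) ^ 91) ^ 3) :=
      Real.log_le_log (by positivity) (by norm_num)
    rw [Real.log_pow, Real.log_pow, Real.log_pow] at this
    push_cast at this
    linarith
  have hpos : 0 < binEntropy (99 / 200) := binEntropy_pos (by norm_num) (by norm_num)
  rw [hs, div_le_iff₀ hpos, e1, e2]
  linarith

/-- **Sums of dilates of cycles.** (1) Let `a`, `b` be odd, let the finite set `Z` of integers be a union of cycles of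
`T_{a,b}`, and let `r` be the proportion of odd elements of `Z`. Then for all non-zero integers `u`, `v` the
set `u Z + v Z` has at least `|Z| ^ (2 - h(r) / h(2 r (1 - r)))` elements, `h` the binary entropy function.
(2) If `Z` is a finite union of cycles of the `5x+1` map, `0` and `-1` not in `Z`, then `u Z + v Z` has at least
`|Z| ^ 1.006` elements for all non-zero integers `u`, `v`. -/
theorem result :
    (∀ a b : ℤ, a % 2 = 1 → b % 2 = 1 → ∀ Z : Finset ℤ, IsUnionOfCycles a b Z →
      ∀ u v : ℤ, u ≠ 0 → v ≠ 0 →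
        (Z.card : ℝ) ^ (2 - binEntropy (oddProportion Z) /
          binEntropy (2 * oddProportion Z * (1 - oddProportion Z))) ≤
          ((Finset.image₂ (fun x y => u * x + v * y) Z Z).card : ℝ)) ∧
    (∀ Z : Finset ℤ, IsUnionOfCycles 5 1 Z → (0 : ℤ) ∉ Z → (-1 : ℤ) ∉ Z →
      ∀ u v : ℤ, u ≠ 0 → v ≠ 0 →
        (Z.card : ℝ) ^ (1.006 : ℝ) ≤ ((Finset.image₂ (fun x y => u * x + v * y) Z Z).card : ℝ)) := by
  refine ⟨fun a b ha hb Z hZ u v hu hv => general ha hb hZ hu hv, fun Z hZ h0 h1 u v hu hv => ?_⟩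
  rcases Finset.eq_empty_or_nonempty Z with hE | hN
  · subst hE
    simp only [Finset.card_empty, Nat.cast_zero, Finset.image₂_empty_left]
    rw [Real.zero_rpow (by norm_num)]
  have hc : (0 : ℝ) < Z.card := by exact_mod_cast Finset.card_pos.2 hN
  have hc1 : (1 : ℝ) ≤ Z.card := by exact_mod_cast Finset.card_pos.2 hN
  have hρ : binEntropy (Pool.Agent.N903.SS.rho Z) ≤ binEntropy (9 / 20) := by
    have hd := density hZ h0 h1
    have hd' : (20 : ℝ) * ((Z.filter fun x => x % 2 = 1).card : ℝ) ≤ 9 * Z.card := by exact_mod_cast hd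
    have h5 : Pool.Agent.N903.SS.rho Z ≤ 9 / 20 := by
      unfold Pool.Agent.N903.SS.rho
      rw [div_le_iff₀ hc]
      linarith
    have h6 : 0 ≤ Pool.Agent.N903.SS.rho Z := by
      unfold Pool.Agent.N903.SS.rho
      positivity
    apply binEntropy_strictMonoOn.monotoneOn
    · exact ⟨h6, by norm_num; linarith⟩
    · constructor <;> norm_num
    · exact h5
  have hmain := Pool.Agent.N903.SS.main (a := 5) (b := 1) (by norm_num) (by norm_num) (inv_of hZ) hN
    (β := 9 / 20) (by norm_num) (by norm_num) hρ hu hv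
  have hnum := numerics
  have hlog : 0 ≤ Real.log Z.card := Real.log_nonneg hc1
  apply to_rpow hN (dil_nonempty hN u v)
  refine le_trans (mul_le_mul_of_nonneg_right ?_ hlog) hmain
  linarith

end Pool.Agent.Results.MP_dee342_nt.SumsOfDilatesCycles
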