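import Pool.Agent.N760.IT.C
import Pool.Agent.Results.MP_dee342_nt.CyclesBelowEntropy
import Pool.Agent.Results.MP_dee342_nt.IntervalLengths

/-!
# Cycles of the maps `T_{a,b}` and the members of almost all orbits of Euler's function

Let `φ_k` be the `k`-th iterate of Euler's function, `φ_0(m) = m`. Let `f` be a positive multiplicative function of at most
polynomial growth such that `f p ≤ M p` for the large primes `p`, with different values at different large primes; for example
the identity, Euler's function or the sum of the divisors. Let `α > 0`, `d ≥ 1` and `κ ≥ 0`.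

* If `12 d / 13 + κ < 1`, there is `K(m)` tending to infinity such that for almost all `m`, for all `k ≤ K(m)`, with
  `v = f(φ_k(m))`, no cycle of the `3x+1` map on the integers has a number of elements within `v^κ` of `α v^d`.
* Let `a ≥ 3` and `b` be odd. If `d H + κ ≤ 1`, where `H` is the binary entropy of `log 2 / log a`, there is `K(m)` tending to
  infinity such that for almost all `m`, for all `k ≤ K(m)`, with `v = f(φ_k(m))`, no cycle of `T_{a,b}` on the integers (`3x+1`
  and `5x+1` among them) has its largest element in absolute value within `v^κ` of `α v^d`.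

More generally `G v` takes the place of `α v^d`, where `G` is any function with steps bounded below by a positive constant and
growth at most `v^d`. The iterates of Euler's function are not multiplicative, their values form a thin set and are taken with
very large multiplicities, and so this does not follow from the counts of the lengths and of the cycles.
-/

set_option autoImplicit false

namespace Pool.Agent.Results.MP_dee342_nt.TotientOrbits

open Finset Filter
open Pool.Agent.N733.TG (LM Expanding lm_totient lm_sigma expanding_pow)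
open Pool.Agent.N760.IT (orb lm_id orbit_windows orbit_good_nat)
open Pool.Agent.N826.IT.Orb (AlmostAll almostAll_mono)

/-- The map `T_{a,b}` on the integers. -/
def T (a b x : ℤ) : ℤ := if x % 2 = 0 then x / 2 else (a * x + b) / 2

/-- `Z` is a cycle (periodic orbit) of `T_{a,b}`. -/
def IsCycle (a b : ℤ) (Z : Finset ℤ) : Prop :=
  ∃ (x : ℤ) (p : ℕ), 1 ≤ p ∧ (T a b)^[p] x = x ∧ Z = (Finset.range p).image fun i => (T a b)^[i] x

/-- the largest absolute value of an element of `Z` -/
def top (Z : Finset ℤ) : ℕ := Z.sup Int.natAbs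

/-- the entropy of `log 2 / log a` -/
noncomputable def entropy (a : ℕ) : ℝ := Real.binEntropy (Real.log 2 / Real.log a) / Real.log 2

lemma le_top {Z : Finset ℤ} {x : ℤ} (hx : x ∈ Z) : |(x : ℝ)| ≤ top Z := by
  have h : x.natAbs ≤ top Z := Finset.le_sup (f := Int.natAbs) hx
  have h2 : (x.natAbs : ℝ) ≤ top Z := by exact_mod_cast h
  rwa [Nat.cast_natAbs, Int.cast_abs] at h2

/-- the cycles in `[-X, X]` are finite in number -/
lemma cycles_finite (f : ℤ → ℤ) (X : ℝ) :
    {c : Finset ℤ | CyclesBelowEntropy.IsCycle f c ∧ ∀ x ∈ c, |(x : ℝ)| ≤ X}.Finite := by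
  apply (Finset.finite_toSet (Finset.Icc (-⌊X⌋) ⌊X⌋).powerset).subset
  intro c hc
  rw [Finset.mem_coe, Finset.mem_powerset]
  intro x hx
  have h := abs_le.1 (hc.2 x hx)
  rw [Finset.mem_Icc]
  refine ⟨?_, Int.le_floor.2 h.2⟩
  have : (-x : ℤ) ≤ ⌊X⌋ := Int.le_floor.2 (by push_cast; linarith [h.1])
  omega

open Classical in
lemma lengths_count : ∃ C : ℝ, ∀ X : ℕ, 1 ≤ X →
    (((Ioc 0 X).filter (fun t => t ∈ {p : ℕ | ∃ Z : Finset ℤ, IsCycle 3 1 Z ∧ Z.card = p})).card : ℝ) ≤
      C * (X : ℝ) ^ ((12 : ℝ) / 13) := by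
  obtain ⟨C, hC⟩ := IntervalLengths.result
  refine ⟨C, fun X hX => le_trans ?_ (hC 1 X hX)⟩
  have hfin : {p : ℕ | 1 ≤ p ∧ p < 1 + X ∧ ∃ Z : Finset ℤ, IntervalLengths.IsCycle Z ∧ Z.card = p}.Finite :=
    (Set.finite_Iio (1 + X)).subset (fun p hp => hp.2.1)
  have hsub : (((Ioc 0 X).filter (fun t => t ∈ {p : ℕ | ∃ Z : Finset ℤ, IsCycle 3 1 Z ∧ Z.card = p}) : Finset ℕ) :
      Set ℕ) ⊆ {p : ℕ | 1 ≤ p ∧ p < 1 + X ∧ ∃ Z : Finset ℤ, IntervalLengths.IsCycle Z ∧ Z.card = p} := by
    intro p hp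
    rw [mem_coe, mem_filter, mem_Ioc] at hp
    exact ⟨by omega, by omega, hp.2⟩
  have h2 := Set.ncard_le_ncard hsub hfin
  rw [Set.ncard_coe_finset] at h2
  exact_mod_cast h2

/-- **Cycles and the members of almost all orbits of Euler's function.** Let `f` be multiplicative and positive, of at most
polynomial growth, with `f p ≤ M p` at the large primes, and injective there. Let `G` have steps `≥ const > 0` and growth at
most `v^d`, and let `κ ≥ 0`. (1) If `12 d / 13 + κ < 1`, then there is `K(m)` tending to infinity such that for almost all `m`,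
for all `k ≤ K(m)`, with `v = f(φ_k(m))` (`orb f k m`), no cycle `Z` of the `3x+1` map on the integers satisfies
`||Z| - G v| ≤ v^κ`. (2) If `a ≥ 3` and `b` are odd and `d H(a) + κ ≤ 1`, `H(a) < 1` the entropy of `log 2 / log a`, then there
is `K(m)` tending to infinity such that for almost all `m`, for all `k ≤ K(m)`, with `v = f(φ_k(m))`, no cycle `Z` of `T_{a,b}`
satisfies `|max |Z| - G v| ≤ v^κ`. The identity, Euler's function and the sum of the divisors are examples of such functions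
`f`, and `α v^d` with `α > 0`, `d ≥ 1` is an example of `G`. -/
theorem result :
    (∀ f : ℕ → ℕ, LM f → ∀ (G : ℕ → ℝ) (d : ℝ), Expanding G d → ∀ κ : ℝ, 0 ≤ κ →
      (12 / 13 * d + κ < 1 → ∃ K : ℕ → ℕ, Tendsto K atTop atTop ∧
        AlmostAll (fun m => ∀ k ≤ K m, ∀ Z : Finset ℤ, IsCycle 3 1 Z →
          ¬ |(Z.card : ℝ) - G (orb f k m)| ≤ (orb f k m : ℝ) ^ κ)) ∧
      (∀ (a : ℕ) (b : ℤ), 3 ≤ a → a % 2 = 1 → b % 2 = 1 → entropy a * d + κ ≤ 1 →
        ∃ K : ℕ → ℕ, Tendsto K atTop atTop ∧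
        AlmostAll (fun m => ∀ k ≤ K m, ∀ Z : Finset ℤ, IsCycle a b Z →
          ¬ |(top Z : ℝ) - G (orb f k m)| ≤ (orb f k m : ℝ) ^ κ))) ∧
    (∀ a : ℕ, 3 ≤ a → a % 2 = 1 → entropy a < 1) ∧
    (LM (fun m => m) ∧ LM Nat.totient ∧ LM (fun m => ∑ d ∈ m.divisors, d)) ∧
    ∀ α d : ℝ, 0 < α → 1 ≤ d → Expanding (fun v => α * (v : ℝ) ^ d) d := by
  classical
  refine ⟨fun f hf G d hG κ hκ => ⟨fun h1 => ?_, fun a b ha ha2 hb h1 => ?_⟩, fun a ha ha2 => ?_,
    ⟨lm_id, lm_totient, lm_sigma⟩, fun α d hα hd => expanding_pow hα hd⟩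
  · obtain ⟨C, hC⟩ := lengths_count
    obtain ⟨K, hK, hK2⟩ := orbit_good_nat (fun _ => True)
      (fun n => n ∉ {p : ℕ | ∃ Z : Finset ℤ, IsCycle 3 1 Z ∧ Z.card = p}) hf hG (s := 12 / 13) (κ := κ)
      (by norm_num) hκ (by linarith) (fun ε hε => ⟨|C|, fun X hX => by
        have h2 : ({t : ℕ | 1 ≤ t ∧ t ≤ X ∧ True ∧
            ¬ t ∉ {p : ℕ | ∃ Z : Finset ℤ, IsCycle 3 1 Z ∧ Z.card = p}}.ncard : ℝ) ≤ C * (X : ℝ) ^ ((12 : ℝ) / 13) := by
          refine le_trans (le_of_eq ?_) (hC X hX)
          rw [← Set.ncard_coe_finset]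
          congr 2
          ext t
          simp only [Set.mem_ofPred_eq, coe_filter, mem_Ioc, true_and, not_not]
          constructor
          · rintro ⟨g1, g2, g3⟩
            exact ⟨⟨g1, g2⟩, g3⟩
          · rintro ⟨⟨g1, g2⟩, g3⟩
            exact ⟨g1, g2, g3⟩
        refine h2.trans ((mul_le_mul_of_nonneg_right (le_abs_self C) (by positivity)).trans ?_)
        exact mul_le_mul_of_nonneg_left
          (Real.rpow_le_rpow_of_exponent_le (by exact_mod_cast hX) (by linarith)) (abs_nonneg C)⟩)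
    refine ⟨K, hK, almostAll_mono hK2 (fun m hm k hk Z hZ hw => ?_)⟩
    have hpos : 1 ≤ Z.card := by
      obtain ⟨x, p, hp, -, rfl⟩ := hZ
      rw [Nat.one_le_iff_ne_zero, Finset.card_ne_zero]
      exact ⟨_, Finset.mem_image_of_mem _ (Finset.mem_range.2 hp)⟩
    exact hm k hk Z.card hpos trivial hw ⟨Z, hZ, rfl⟩
  · obtain ⟨η, hη0, hη, hH, hh⟩ := CyclesBelowEntropy.result a ha ha2
    obtain ⟨C, hC0, hC⟩ := hh b hb
    have hd := hG.one_le
    obtain ⟨K, hK, hK2⟩ := orbit_windows {Z : Finset ℤ | IsCycle a b Z} (fun Z => (top Z : ℝ)) hf hG (s := η) (κ := κ)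
      hη0.le hκ (by
        have : η < entropy a := hη
        nlinarith) (fun ε hε => ⟨C, fun X hX => by
        have hsub : {Z : Finset ℤ | Z ∈ {Z : Finset ℤ | IsCycle a b Z} ∧ (top Z : ℝ) ≤ X} ⊆
            {c : Finset ℤ | CyclesBelowEntropy.IsCycle (CyclesBelowEntropy.T a b) c ∧ ∀ x ∈ c, |(x : ℝ)| ≤ X} := by
          rintro Z ⟨h2, h3⟩
          refine ⟨h2, fun x hx => (le_top hx).trans h3⟩
        have hfin := cycles_finite (CyclesBelowEntropy.T a b) X
        refine ⟨hfin.subset hsub, ?_⟩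
        have h4 := Set.ncard_le_ncard hsub hfin
        have h5 : (({Z : Finset ℤ | Z ∈ {Z : Finset ℤ | IsCycle a b Z} ∧ (top Z : ℝ) ≤ X}.ncard : ℕ) : ℝ) ≤
            ({c : Finset ℤ | CyclesBelowEntropy.IsCycle (CyclesBelowEntropy.T a b) c ∧
              ∀ x ∈ c, |(x : ℝ)| ≤ X}.ncard : ℝ) := by exact_mod_cast h4
        refine h5.trans ((hC X hX).trans ?_)
        exact mul_le_mul_of_nonneg_left (Real.rpow_le_rpow_of_exponent_le hX (by linarith)) hC0.le⟩)
    exact ⟨K, hK, almostAll_mono hK2 (fun m hm k hk Z hZ => hm k hk Z hZ)⟩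
  · obtain ⟨η, hη0, hη, hH, hh⟩ := CyclesBelowEntropy.result a ha ha2
    exact hH

end Pool.Agent.Results.MP_dee342_nt.TotientOrbits
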